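import Pool.Agent.H27.TM.TargetsL
import Pool.Agent.H27.TM.TargetsG
import Pool.Agent.H27.TM.TargetsA

/-!
# The mean square of Hecke L-functions over short boxes: targets
-/

set_option autoImplicit false

open NumberField NumberField.InfinitePlace NumberField.Units
  NumberField.Units.dirichletUnitTheorem MeasureTheory Set Filter Complex
open scoped nonZeroDivisors ENNReal

namespace Pool.Agent.H23.SM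

open Pool.Agent.H25.HK Pool.Agent.H23.LB Pool.Agent.H23.LC
open Pool.Agent.H28.RC (Rep ft idl)
open Pool.Agent.H29.DW (dg Rl lf wv Pos Wg cpar Ci om zs rv Wt)
open Pool.Agent.H31.SW (EE itg FF HD DB DS dif Pf GG G2 DD PP pF dK pz ps Tf WG)
open Pool.Agent.H27.TM

/-- the frequencies lie in a box with the radii `H` (up to the factor `2`) -/
def Clo {K : Type} [Field K] [NumberField K] {ι : Type} (J : Finset ι)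
    (c : ι → InfinitePlace K → ℂ) (H : InfinitePlace K → ℝ) : Prop :=
  ∀ i ∈ J, ∀ j ∈ J, ∀ v, ‖c i v - c j v‖ ≤ 2 * H v

/-- (P2) the dual sums, all densities. -/
def S_P2 : Prop :=
  ∀ (n : ℕ) (ε : ℝ), 0 < n → 0 < ε → ∃ N : ℕ, n + 5 ≤ N ∧ ∀ C₁ : ℝ, 0 ≤ C₁ → ∃ C : ℝ, 0 ≤ C ∧
    ∀ (K : Type) [Field K] [NumberField K], Module.finrank ℚ K = n → ∀ (L : FI K)
    (y : InfinitePlace K → ℝ) (ω : InfinitePlace K → ℂ) (G α τ : InfinitePlace K → ℝ)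
    (ι : Type) (I : Finset ι) (c : ι → InfinitePlace K → ℂ) (D : ℝ)
    (Q : InfinitePlace K → ℂ → ℂ) (b : K → ℂ), L ≠ 0 → Pos ω →
    (∀ v, 1 ≤ G v ∧ 0 < α v ∧ α v ≤ 1 / 10000 ∧ G v * α v ≤ 1 / 10000 ∧ G v ^ 3 ≤ τ v) →
    (∀ i ∈ I, Cls τ (c i)) → (∀ i ∈ I, ∀ j ∈ I, ∀ v, ‖c i v - c j v‖ ≤ 2 * G v ^ 3) →
    Spc I c G D → 1 ≤ D → (∀ v, Am N C₁ (rv v) (Q v)) →
    (∀ ν, ‖b ν‖ ≤ dv L y ω α ν) →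
    ∑ i ∈ I, ‖∑' ν : {ν : K // ν ∈ NN K}, b ν * Ep α Q (c i) ν‖ ≤
      C * (D * dK K ^ 2 * PP τ ^ ε * ((I.card : ℝ) ^ (1 / 2 : ℝ) *
        (PP τ ^ (1 / 2 : ℝ) * PP G ^ (-(3 / 2) : ℝ)) + I.card * (1 + DD L y / PP τ)))

/-- (OC) the sums over the differences of a given size at one frequency. -/
def S_OC : Prop :=
  ∀ (n : ℕ) (ε : ℝ) (q Ψ : Bool → ℂ → ℂ), 0 < n → 0 < ε → Pf q → Pf Ψ → ∃ C : ℝ, 0 ≤ C ∧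
    ∀ (K : Type) [Field K] [NumberField K], Module.finrank ℚ K = n → ∀ (L : FI K)
    (y : InfinitePlace K → ℝ) (ω : InfinitePlace K → ℂ) (r : K) (G α τ : InfinitePlace K → ℝ)
    (c : InfinitePlace K → ℂ), L ≠ 0 → Pos ω →
    (∀ v, 1 ≤ G v ∧ 0 < α v ∧ α v ≤ 1 / 10000 ∧ G v * α v ≤ 1 / 10000 ∧ G v ^ 3 = τ v) →
    Cls τ c →
    ‖OD q Ψ L y ω r G α c‖ ≤
      C * (DD L y * (dK K ^ 2 * PP τ ^ ε * (1 + DD L y / PP τ)))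

/-- (CN) the number of the frequencies in a box. -/
def S_CN : Prop :=
  ∀ n : ℕ, 0 < n → ∃ C : ℝ, 1 ≤ C ∧ ∀ (K : Type) [Field K] [NumberField K],
    Module.finrank ℚ K = n → ∀ (ι : Type) (J : Finset ι) (c : ι → InfinitePlace K → ℂ)
    (G H : InfinitePlace K → ℝ), (∀ v, 1 ≤ G v ∧ G v ≤ H v) →
    (∀ j ∈ J, ∀ v, Rl (rv v) (c j v)) → Clo J c H →
    ∃ bl : ι → ℕ, ((J.image bl).card : ℝ) ≤ C * (PP H / PP G) ∧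
      ∀ i ∈ J, ∀ j ∈ J, bl i = bl j → ∀ v, ‖c i v - c j v‖ ≤ 2 * G v

/-- (K1) the mean square over a box with the radii `τ_v ^ (1/3)` at a fixed position. -/
def S_K1 : Prop :=
  ∀ (n : ℕ) (ε : ℝ) (p : Bool → ℂ → ℂ), 0 < n → 0 < ε → Pf p → ∃ C : ℝ, 0 ≤ C ∧
    ∀ (K : Type) [Field K] [NumberField K], Module.finrank ℚ K = n → ∀ (L : FI K)
    (y : InfinitePlace K → ℝ) (ω : InfinitePlace K → ℂ) (r : K) (G τ : InfinitePlace K → ℝ)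
    (ι : Type) (J : Finset ι) (c : ι → InfinitePlace K → ℂ) (D : ℝ), L ≠ 0 → Pos ω →
    (∀ v, 1 ≤ G v ∧ G v ^ 3 = τ v) → (∀ j ∈ J, Cls τ (c j)) → Clo J c G →
    Spc J c (fun _ => 1) D → 1 ≤ D →
    ∑ j ∈ J, ‖SS p L y ω r (c j)‖ ^ 2 ≤ C * (D * dK K ^ 2 * PP τ ^ ε * PP G *
      ((1 + DD L y) * (1 + DD L y / PP τ) ^ (3 / 2 : ℝ)))

/-- (K2) the mean square over a larger box at a fixed position. -/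
def S_K2 : Prop :=
  ∀ (n : ℕ) (ε : ℝ) (p : Bool → ℂ → ℂ), 0 < n → 0 < ε → Pf p → ∃ C : ℝ, 0 ≤ C ∧
    ∀ (K : Type) [Field K] [NumberField K], Module.finrank ℚ K = n → ∀ (L : FI K)
    (y : InfinitePlace K → ℝ) (ω : InfinitePlace K → ℂ) (r : K) (H τ : InfinitePlace K → ℝ)
    (ι : Type) (J : Finset ι) (c : ι → InfinitePlace K → ℂ) (D : ℝ), L ≠ 0 → Pos ω →
    (∀ v, 1 ≤ τ v ∧ 1 ≤ H v ∧ τ v ≤ H v ^ 3) → (∀ j ∈ J, Cls τ (c j)) → Clo J c H →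
    Spc J c (fun _ => 1) D → 1 ≤ D →
    ∑ j ∈ J, ‖SS p L y ω r (c j)‖ ^ 2 ≤ C * (D * dK K ^ 2 * PP τ ^ ε * PP H *
      ((1 + DD L y) * (1 + DD L y / PP τ) ^ (3 / 2 : ℝ)))

/-- (KF) the mean square over a box for a wider class of frequencies. -/
def S_KF : Prop :=
  ∀ n : ℕ, 0 < n → ∃ B : ℝ, 0 ≤ B ∧ ∀ (ε : ℝ) (p : Bool → ℂ → ℂ), 0 < ε → ε ≤ 1 → Pf p →
    ∃ C : ℝ, 0 ≤ C ∧ ∀ (K : Type) [Field K] [NumberField K], Module.finrank ℚ K = n →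
    ∀ (L : FI K) (y : InfinitePlace K → ℝ) (ω : InfinitePlace K → ℂ) (r : K)
    (H τ : InfinitePlace K → ℝ) (ι : Type) (J : Finset ι) (c : ι → InfinitePlace K → ℂ)
    (D Λ : ℝ), L ≠ 0 → Pos ω → 1 ≤ Λ → (∀ v, 1 ≤ τ v ∧ 1 ≤ H v ∧ τ v ≤ H v ^ 3) →
    (∀ j ∈ J, ∀ v, Rl (rv v) (c j v) ∧ τ v ≤ Λ * (1 + ‖c j v‖) ∧ 1 + ‖c j v‖ ≤ Λ * τ v) →
    Clo J c H → Spc J c (fun _ => 1) D → 1 ≤ D →
    ∑ j ∈ J, ‖SS p L y ω r (c j)‖ ^ 2 ≤ C * ((D * dK K * Λ) ^ B * PP τ ^ ε * PP H *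
      ((1 + DD L y) * (1 + DD L y / PP τ) ^ (3 / 2 : ℝ)))

/-- (RT) the sum over the residue classes. -/
def S_RT : Prop :=
  ∀ n : ℕ, 0 < n → ∃ B : ℝ, 0 ≤ B ∧ ∀ (ε : ℝ) (p : Bool → ℂ → ℂ), 0 < ε → ε ≤ 1 → Pf p →
    ∃ C : ℝ, 0 ≤ C ∧ ∀ (K : Type) [Field K] [NumberField K], Module.finrank ℚ K = n →
    ∀ (f : Ideal (𝓞 K)) (M : FI K) (y : InfinitePlace K → ℝ) (ω : InfinitePlace K → ℂ)
    (H τ : InfinitePlace K → ℝ) (ι : Type) (J : Finset ι) (c : ι → InfinitePlace K → ℂ)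
    (cc : ι → K → ℂ) (D E u : ℝ), f ≠ ⊥ → M ≠ 0 → Pos ω →
    (∀ v, 1 ≤ τ v ∧ 1 ≤ H v ∧ τ v ≤ H v ^ 3) →
    (∀ j ∈ J, Cls τ (c j)) → Clo J c H → Spc J c (fun _ => 1) D → 1 ≤ D → 0 ≤ E →
    (∀ j ∈ J, ∀ x ∈ M, ∀ l ∈ (f : FI K) * M, cc j (x + l) = cc j x) →
    (∀ j ∈ J, ∀ x ∈ M, ‖cc j x‖ ≤ E) →
    ∑ j ∈ J, ‖∑' x : {x : K // x ∈ M}, cc j x *
        pF (fun v => GG (p (rv v)) (c j v + (v.mult : ℂ) * u)) y ω x‖ ^ 2 ≤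
      C * ((E * Nf K f) ^ 2 * (D * dK K * (1 + |u|)) ^ B * PP τ ^ ε * PP H *
        ((1 + DD M y / Nf K f) * (1 + DD M y / Nf K f / PP τ) ^ (3 / 2 : ℝ)))

/-- (JN) the inequality of Minkowski. -/
def S_JN : Prop :=
  ∀ (α ι : Type) [MeasurableSpace α] (μ : Measure α) (J : Finset ι) (F : ι → α → ℝ≥0∞)
    (w : α → ℝ≥0∞), (∀ a, ∑ j ∈ J, F j a ^ 2 ≤ w a ^ 2) →
    ∑ j ∈ J, (∫⁻ a, F j a ∂μ) ^ 2 ≤ (∫⁻ a, w a ∂μ) ^ 2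

open scoped Classical in
/-- (BI) the bound for the integral over all positions. -/
def S_BI : Prop :=
  ∀ n : ℕ, 0 < n → ∃ B₁ : ℝ, 0 ≤ B₁ ∧ ∀ ε κ : ℝ, 0 < ε → ε ≤ 1 → 0 < κ → κ ≤ ε / 24 →
    ∃ C : ℝ, 0 ≤ C ∧ ∀ (K : Type) [Field K] [NumberField K], Module.finrank ℚ K = n →
    ∀ (ι : Type) [Fintype ι] (M : ι → FI K), Reps K M → ∀ (f : Ideal (𝓞 K))
    (H τ : InfinitePlace K → ℝ) (A : Type) (J : Finset A) (c : A → InfinitePlace K → ℂ)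
    (X B D E : ℝ) (v : A → ℝ → ℂ) (cc : A → ι → K → ℂ) (s : Bool), f ≠ ⊥ →
    (∀ v, 1 ≤ τ v ∧ 1 ≤ H v ∧ τ v ≤ H v ^ 3) →
    (∀ a ∈ J, Cls τ (c a)) → Clo J c H → Spc J c (fun _ => 1) D → 1 ≤ D → 1 ≤ X →
    X ^ 2 ≤ 6 ^ n * (dK K * Nf K f * PP τ) → 0 ≤ B → (∀ a ∈ J, Wt κ X B (v a)) → 0 ≤ E →
    (∀ a ∈ J, ∀ i, ∀ x ∈ M i, ∀ l ∈ (f : FI K) * M i, cc a i (x + l) = cc a i x) →
    (∀ a ∈ J, ∀ i, ∀ x ∈ M i, ‖cc a i x‖ ≤ E) →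
    ∑ a ∈ J, (∑ i, ∫⁻ u in Fd K ×ˢ (univ : Set ℝ) ×ˢ An K,
      ENNReal.ofReal ‖∑' x : {x : K // x ∈ M i ∧ x ≠ 0}, cc a i x *
        v a (Ideal.absNorm (idl K (M i) x)) *
          pF (fun v => GG (pz (rv v)) (c a v)) (yM K (M i) u.2.1 (zs s u.1))
            (om s u.2.2) x‖) ^ 2 ≤
    ENNReal.ofReal (C * ((B * E * (classNumber K * regulator K)) ^ 2 *
      (D * dK K * Nf K f) ^ B₁ * PP τ ^ ε * PP H))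

/-- (BP) the first sums. -/
def S_BP : Prop :=
  ∀ n : ℕ, 0 < n → ∃ B₁ : ℝ, 0 ≤ B₁ ∧ ∀ ε κ : ℝ, 0 < ε → ε ≤ 1 → 0 < κ → κ ≤ ε / 24 →
    ∃ C : ℝ, 0 ≤ C ∧ ∀ (K : Type) [Field K] [NumberField K], Module.finrank ℚ K = n →
    ∀ (f : Ideal (𝓞 K)), f ≠ ⊥ → ∀ (H τ : InfinitePlace K → ℝ) (S : Finset (HG K f × ℝ))
    (B D : ℝ) (v : HG K f × ℝ → ℝ → ℂ), (∀ v, 1 ≤ τ v ∧ 1 ≤ H v ∧ τ v ≤ H v ^ 3) →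
    (∀ q ∈ S, Cls τ (cq q)) → Clo S cq H →
    Spc S cq (fun _ => 1) D → 1 ≤ D → 0 ≤ B →
    (∀ q ∈ S, Wt κ (Real.sqrt (|(discr K : ℝ)| * Nf K f * Ci q.1.k q.1.ν q.2)) B (v q)) →
    ∑ q ∈ S, ‖∑' J : NZI K, q.1.ψ J.1 * v q (Ideal.absNorm J.1) *
      (Ideal.absNorm J.1 : ℂ) ^ (-(q.2 * I : ℂ))‖ ^ 2 ≤
    C * ((B * (classNumber K * regulator K)) ^ 2 * (D * dK K * Nf K f) ^ B₁ *
      PP τ ^ ε * PP H)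

/-- (BQ) the dual sums. -/
def S_BQ : Prop :=
  ∀ n : ℕ, 0 < n → ∃ B₁ : ℝ, 0 ≤ B₁ ∧ ∀ ε κ : ℝ, 0 < ε → ε ≤ 1 → 0 < κ → κ ≤ ε / 24 →
    ∃ C : ℝ, 0 ≤ C ∧ ∀ (K : Type) [Field K] [NumberField K], Module.finrank ℚ K = n →
    ∀ (f : Ideal (𝓞 K)), f ≠ ⊥ → ∀ (Y : Sys K f) (H τ : InfinitePlace K → ℝ)
    (S : Finset (HG K f × ℝ)) (B D : ℝ) (v : HG K f × ℝ → ℝ → ℂ),
    (∀ v, 1 ≤ τ v ∧ 1 ≤ H v ∧ τ v ≤ H v ^ 3) →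
    (∀ q ∈ S, Cls τ (cq q)) → Clo S cq H → Spc S cq (fun _ => 1) D → 1 ≤ D → 0 ≤ B →
    (∀ q ∈ S, Wt κ (Real.sqrt (|(discr K : ℝ)| * Nf K f * Ci q.1.k q.1.ν q.2)) B (v q)) →
    ∑ q ∈ S, ‖∑' J : NZI K, cd Y q.1 J.1 * v q (Ideal.absNorm J.1) *
      (Ideal.absNorm J.1 : ℂ) ^ (q.2 * I : ℂ)‖ ^ 2 ≤
    C * ((B * (classNumber K * regulator K)) ^ 2 * (D * dK K * Nf K f) ^ B₁ *
      PP τ ^ ε * PP H)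

/-- (LT) the mean square of a class in a box. -/
def S_LT : Prop :=
  ∀ n : ℕ, 0 < n → ∃ B : ℝ, 0 ≤ B ∧ ∀ ε : ℝ, 0 < ε → ε ≤ 1 → ∃ C : ℝ, 0 ≤ C ∧
    ∀ (K : Type) [Field K] [NumberField K], Module.finrank ℚ K = n →
    ∀ (f : Ideal (𝓞 K)), f ≠ ⊥ → ∀ (Y : Sys K f) (L : HG K f → ℂ → ℂ),
    (∀ χ, IsL Y χ (L χ)) → ∀ (H τ : InfinitePlace K → ℝ) (S : Finset (HG K f × ℝ)),
    (∀ v, 1 ≤ τ v ∧ 1 ≤ H v ∧ τ v ≤ H v ^ 3) → (∀ q ∈ S, Cls τ (cq q)) → Clo S cq H →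
    Sp1 S →
    ∑ q ∈ S, ‖L q.1 (1 / 2 + q.2 * I)‖ ^ 2 ≤ C * ((dK K * Nf K f) ^ B * PP τ ^ ε * PP H)

/-- (TM) the mean square over a short box. -/
def S_TM : Prop :=
  ∀ n : ℕ, 0 < n → ∃ B : ℝ, 0 ≤ B ∧ ∀ ε : ℝ, 0 < ε → ε ≤ 1 → ∃ C : ℝ, 0 ≤ C ∧
    ∀ (K : Type) [Field K] [NumberField K], Module.finrank ℚ K = n →
    ∀ (f : Ideal (𝓞 K)), f ≠ ⊥ → ∀ (Y : Sys K f) (L : HG K f → ℂ → ℂ),
    (∀ χ, IsL Y χ (L χ)) → ∀ (H T : InfinitePlace K → ℝ) (S : Finset (HG K f × ℝ)),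
    (∀ v, 1 ≤ T v ∧ T v ≤ H v ^ 3 ∧ 0 ≤ H v) → InT T S → Sp1 S →
    (∀ p ∈ S, ∀ q ∈ S, ∀ v : InfinitePlace K,
      |(p.2 - p.1.ν v) - (q.2 - q.1.ν v)| + |(p.1.k v : ℝ) - q.1.k v| ≤ H v) →
    ∑ q ∈ S, ‖L q.1 (1 / 2 + q.2 * I)‖ ^ 2 ≤ C * ((dK K * Nf K f) ^ B * PP T ^ ε * PP H)

end Pool.Agent.H23.SM
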